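import Mathlib.Order.ConditionallyCompleteLattice.Basic
import Mathlib.Algebra.BigOperators.Ring.Finset
import Mathlib.Algebra.Order.BigOperators.Group.Finset
import Mathlib.CategoryTheory.Category.Init
import Mathlib.Data.Int.ConditionallyCompleteOrder
import Mathlib.Data.Int.Star
import Mathlib.Algebra.Order.Ring.Star
import Mathlib.Tactic.Bound

/-!
Potential-function certificate for the bound on upper minus lower signed domination in trees.

A vertex of a rooted tree carries the state
(sign of g, sign of f, is root, sign of g at the parent, sign of f at the parent,
 tight, needs a tight parent).
`pot` is a potential on states and `mul` gives the linear-programming multipliers.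
-/

namespace Pool.Agent.MP_1fa864_co

open Finset

def sg (b : Bool) : ℤ := if b then 1 else -1

def ind (b : Bool) : ℤ := if b then 1 else 0

def pot : Bool → Bool → Bool → Bool → Bool → Bool → Bool → ℤ
  | _, _, true, _, _, _, _ => -2
  | false, false, false, false, false, false, false => -22
  | false, false, false, false, false, true, false => -14
  | false, false, false, false, true, false, false => -14
  | false, false, false, false, true, true, false => -20
  | false, false, false, true, false, false, false => -22
  | false, false, false, true, false, true, false => -14
  | false, false, false, true, true, false, false => -14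
  | false, false, false, true, true, true, false => -6
  | false, true, false, false, false, false, false => -13
  | false, true, false, false, false, false, true => -7
  | false, true, false, false, false, true, false => -13
  | false, true, false, false, true, false, false => -13
  | false, true, false, false, true, false, true => -7
  | false, true, false, false, true, true, false => -19
  | false, true, false, true, false, false, false => -13
  | false, true, false, true, false, false, true => -7
  | false, true, false, true, false, true, false => 1
  | false, true, false, true, true, false, false => -5
  | false, true, false, true, true, false, true => 1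
  | false, true, false, true, true, true, false => -5
  | true, false, false, false, false, false, false => -10
  | true, false, false, false, false, true, false => -10
  | true, false, false, false, true, false, false => -10
  | true, false, false, false, true, true, false => -10
  | true, false, false, true, false, false, false => -8
  | true, false, false, true, false, true, false => -8
  | true, false, false, true, true, false, false => -8
  | true, false, false, true, true, true, false => -8
  | true, true, false, false, false, false, false => -8
  | true, true, false, false, false, false, true => -14
  | true, true, false, false, false, true, false => -4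
  | true, true, false, false, true, false, false => -4
  | true, true, false, false, true, false, true => -6
  | true, true, false, false, true, true, false => -10
  | true, true, false, true, false, false, false => -8
  | true, true, false, true, false, false, true => -14
  | true, true, false, true, false, true, false => -1
  | true, true, false, true, true, false, false => -4
  | true, true, false, true, true, false, true => -6
  | true, true, false, true, true, true, false => -2
  | _, _, _, _, _, _, _ => 0

def mul : Bool → Bool → Bool → Bool → Bool → Bool → Bool → ℤ × ℤ × ℤ
  | false, false, false, false, false, false, false => (0, 4, 0)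
  | false, false, false, false, false, true, false => (0, 4, 0)
  | false, false, false, false, false, true, true => (0, 4, 0)
  | false, false, false, false, true, false, false => (0, 4, 0)
  | false, false, false, false, true, true, false => (7, -3, 0)
  | false, false, false, false, true, true, true => (7, -3, 0)
  | false, false, true, _, _, false, false => (0, 4, 0)
  | false, false, true, _, _, true, false => (0, 4, 0)
  | false, false, true, _, _, true, true => (0, 4, 0)
  | false, false, false, true, false, false, false => (0, 4, 0)
  | false, false, false, true, false, true, false => (0, 4, 0)
  | false, false, false, true, false, true, true => (0, 4, 0)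
  | false, false, false, true, true, false, false => (0, 4, 0)
  | false, false, false, true, true, true, false => (0, 4, 0)
  | false, false, false, true, true, true, true => (0, 4, 0)
  | false, true, false, false, false, false, false => (0, 4, 6)
  | false, true, false, false, false, false, true => (0, 4, 0)
  | false, true, false, false, false, true, false => (7, -3, 0)
  | false, true, false, false, false, true, true => (7, -3, 0)
  | false, true, false, false, true, false, false => (4, 0, 6)
  | false, true, false, false, true, false, true => (4, 0, 0)
  | false, true, false, false, true, true, false => (7, -3, 0)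
  | false, true, false, false, true, true, true => (7, -3, 0)
  | false, true, true, _, _, false, false => (0, 4, 6)
  | false, true, true, _, _, true, false => (7, -3, 0)
  | false, true, true, _, _, true, true => (7, -3, 0)
  | false, true, false, true, false, false, false => (0, 4, 6)
  | false, true, false, true, false, false, true => (0, 4, 0)
  | false, true, false, true, false, true, false => (0, 4, 0)
  | false, true, false, true, false, true, true => (0, 4, 0)
  | false, true, false, true, true, false, false => (0, 0, 10)
  | false, true, false, true, true, false, true => (0, 4, 0)
  | false, true, false, true, true, true, false => (0, -10, 0)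
  | false, true, false, true, true, true, true => (7, -3, 0)
  | true, false, false, false, false, false, false => (1, 0, 0)
  | true, false, false, false, false, true, false => (1, 0, 0)
  | true, false, false, false, false, true, true => (1, 0, 0)
  | true, false, false, false, true, false, false => (1, 0, 0)
  | true, false, false, false, true, true, false => (1, 0, 0)
  | true, false, false, false, true, true, true => (1, 0, 0)
  | true, false, true, _, _, false, false => (1, 0, 0)
  | true, false, true, _, _, true, false => (1, 0, 0)
  | true, false, true, _, _, true, true => (1, 0, 0)
  | true, false, false, true, false, false, false => (1, 0, 0)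
  | true, false, false, true, false, true, false => (1, 0, 0)
  | true, false, false, true, false, true, true => (1, 0, 0)
  | true, false, false, true, true, false, false => (1, 0, 0)
  | true, false, false, true, true, true, false => (0, -1, 0)
  | true, false, false, true, true, true, true => (1, 0, 0)
  | true, true, false, false, false, false, false => (0, 2, 0)
  | true, true, false, false, false, false, true => (0, 4, 0)
  | true, true, false, false, false, true, false => (2, 0, 0)
  | true, true, false, false, false, true, true => (2, 0, 0)
  | true, true, false, false, true, false, false => (0, 0, 2)
  | true, true, false, false, true, false, true => (0, 4, 0)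
  | true, true, false, false, true, true, false => (1, -7, 0)
  | true, true, false, false, true, true, true => (5, -3, 0)
  | true, true, true, _, _, false, false => (0, 2, 0)
  | true, true, true, _, _, true, false => (0, -6, 0)
  | true, true, true, _, _, true, true => (2, 0, 0)
  | true, true, false, true, false, false, false => (0, 2, 0)
  | true, true, false, true, false, false, true => (0, 4, 0)
  | true, true, false, true, false, true, false => (0, -1, 0)
  | true, true, false, true, false, true, true => (1, 0, 0)
  | true, true, false, true, true, false, false => (0, 0, 2)
  | true, true, false, true, true, false, true => (0, 4, 0)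
  | true, true, false, true, true, true, false => (0, -6, 0)
  | true, true, false, true, true, true, true => (0, -6, 0)
  | _, _, _, _, _, _, _ => (0, 0, 0)

set_option synthInstance.maxSize 2000 in
theorem child_ok : ∀ gv fv rt gp fp t e gc fc tc nc : Bool,
    (nc = true → t = true) → (nc = true → tc = false) → (nc = true → fc = true) →
    (t = false → e = true → tc = false) → (t = false → e = true → fv = true) →
    (t = false → e = true → rt = false) →
    pot gc fc false gv fv tc nc ≤
      - (mul gv fv rt gp fp t e).1 * sg gc - (mul gv fv rt gp fp t e).2.1 * sg fc
        - (mul gv fv rt gp fp t e).2.2 * ind tc := by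
  decide +kernel

theorem mul_a : ∀ gv fv rt gp fp t e : Bool, 0 ≤ (mul gv fv rt gp fp t e).1 := by
  decide +kernel

theorem mul_b : ∀ gv fv rt gp fp e : Bool, 0 ≤ (mul gv fv rt gp fp false e).2.1 := by
  decide +kernel

theorem mul_c : ∀ gv fv rt gp fp t e : Bool, 0 ≤ (mul gv fv rt gp fp t e).2.2 := by
  decide +kernel

theorem final_ok : ∀ gv fv rt gp fp t e : Bool,
    (t = false → e = true → fv = true) → (t = false → e = true → rt = false) →
    7 * (ind fv - ind gv) - 2
      - (mul gv fv rt gp fp t e).1 *
          ((if t && e then 2 else 1) - sg gv - (if rt then 0 else sg gp))
      - (mul gv fv rt gp fp t e).2.1 *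
          ((if t then (if e then 2 else 1) else 3) - sg fv - (if rt then 0 else sg fp))
      - (mul gv fv rt gp fp t e).2.2 * ind (!t && !e && fv)
      ≤ pot gv fv rt gp fp t (!t && e) := by
  decide +kernel

theorem sg_sub_even (a b : Bool) : ∃ k : ℤ, sg a - sg b = 2 * k := by
  cases a <;> cases b
  · exact ⟨0, by decide⟩
  · exact ⟨-1, by decide⟩
  · exact ⟨1, by decide⟩
  · exact ⟨0, by decide⟩

theorem ind_nonneg (b : Bool) : 0 ≤ ind b := by cases b <;> decide

/-- The local inequality at one vertex. -/
theorem local_ineq {ι : Type*} (s : Finset ι) (gc fc tc nc : ι → Bool)
    (gv fv rt gp fp t nd : Bool)
    (hG : 1 ≤ sg gv + (if rt then 0 else sg gp) + ∑ i ∈ s, sg (gc i))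
    (hF : 1 ≤ sg fv + (if rt then 0 else sg fp) + ∑ i ∈ s, sg (fc i))
    (ht : t = true ↔ sg fv + (if rt then 0 else sg fp) + ∑ i ∈ s, sg (fc i) ≤ 2)
    (hn1 : ∀ i ∈ s, nc i = true → t = true)
    (hn2 : ∀ i ∈ s, nc i = true → tc i = false)
    (hn3 : ∀ i ∈ s, nc i = true → fc i = true)
    (hnd : nd = true ↔ fv = true ∧ t = false ∧ ∀ i ∈ s, tc i = false)
    (hrt : nd = true → rt = false) :
    7 * (ind fv - ind gv) - 2 + ∑ i ∈ s, pot (gc i) (fc i) false gv fv (tc i) (nc i)
      ≤ pot gv fv rt gp fp t nd := by
  classical
  set SG := ∑ i ∈ s, sg (gc i) with hSG
  set SF := ∑ i ∈ s, sg (fc i) with hSF
  set ST := ∑ i ∈ s, ind (tc i) with hST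
  have hpar : ∃ k : ℤ, SG - SF = 2 * k := by
    have : (2 : ℤ) ∣ ∑ i ∈ s, (sg (gc i) - sg (fc i)) :=
      Finset.dvd_sum fun i _ => sg_sub_even _ _
    rw [Finset.sum_sub_distrib] at this
    exact this
  obtain ⟨k, hk⟩ := hpar
  obtain ⟨k1, hk1⟩ := sg_sub_even gv fv
  have hk2 : ∃ k2 : ℤ, (if rt then 0 else sg gp) - (if rt then 0 else sg fp) = 2 * k2 := by
    cases rt
    · simpa using sg_sub_even gp fp
    · exact ⟨0, by simp⟩
  obtain ⟨k2, hk2⟩ := hk2
  have hST0 : 0 ≤ ST := Finset.sum_nonneg fun i _ => ind_nonneg _
  let e : Bool := if t then
    decide (sg fv + (if rt then 0 else sg fp) + SF = 2) else nd
  have he1 : t = false → e = true → fv = true := by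
    intro h1 h2
    simp only [e, h1] at h2
    exact (hnd.1 (by simpa using h2)).1
  have he2 : t = false → e = true → rt = false := by
    intro h1 h2
    simp only [e, h1] at h2
    exact hrt (by simpa using h2)
  have he3 : t = false → e = true → ∀ i ∈ s, tc i = false := by
    intro h1 h2
    simp only [e, h1] at h2
    exact (hnd.1 (by simpa using h2)).2.2
  have hnde : nd = (!t && e) := by
    cases ht' : t
    · simp [e, ht']
    · cases hnd' : nd
      · simp
      · have := (hnd.1 hnd').2.1
        rw [ht'] at this
        exact absurd this (by decide)
  have hsum : ∑ i ∈ s, pot (gc i) (fc i) false gv fv (tc i) (nc i) ≤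
      - (mul gv fv rt gp fp t e).1 * SG - (mul gv fv rt gp fp t e).2.1 * SF
        - (mul gv fv rt gp fp t e).2.2 * ST := by
    rw [hSG, hSF, hST, Finset.mul_sum, Finset.mul_sum, Finset.mul_sum, ← Finset.sum_sub_distrib,
      ← Finset.sum_sub_distrib]
    refine Finset.sum_le_sum fun i hi => ?_
    exact child_ok gv fv rt gp fp t e (gc i) (fc i) (tc i) (nc i) (hn1 i hi) (hn2 i hi)
      (hn3 i hi) (fun h1 h2 => he3 h1 h2 i hi) he1 he2
  have hfin := final_ok gv fv rt gp fp t e he1 he2
  rw [← hnde] at hfin
  have ha := mul_a gv fv rt gp fp t e
  have hc := mul_c gv fv rt gp fp t e
  have hGlow : (if t && e then 2 else 1) - sg gv - (if rt then 0 else sg gp) ≤ SG := by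
    cases ht' : t
    · simp only [Bool.false_and, Bool.false_eq_true, if_false]; linarith
    · cases he' : e
      · simp only [Bool.and_false, Bool.false_eq_true, if_false]; linarith
      · simp only [Bool.and_true, if_true]
        simp only [e, ht', if_true, decide_eq_true_eq] at he'
        omega
  have hTlow : ind (!t && !e && fv) ≤ ST := by
    cases hb : (!t && !e && fv)
    · simpa [ind] using hST0
    · simp only [Bool.and_eq_true, Bool.not_eq_true'] at hb
      obtain ⟨⟨h1, h2⟩, h3⟩ := hb
      have hnd0 : nd = false := by rw [hnde, h1, h2]; rfl
      have : ¬ ∀ i ∈ s, tc i = false := by
        intro h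
        have := hnd.2 ⟨h3, h1, h⟩
        rw [hnd0] at this
        exact absurd this (by decide)
      push Not at this
      obtain ⟨i, hi, hti⟩ := this
      have h1' : ind (tc i) ≤ ST :=
        Finset.single_le_sum (f := fun i => ind (tc i)) (fun j _ => ind_nonneg _) hi
      have : tc i = true := by simpa using hti
      rw [this] at h1'
      exact h1'
  have hFterm : (mul gv fv rt gp fp t e).2.1 *
      ((if t then (if e then 2 else 1) else 3) - sg fv - (if rt then 0 else sg fp)) ≤
      (mul gv fv rt gp fp t e).2.1 * SF := by
    cases ht' : t
    · have hb := mul_b gv fv rt gp fp e
      have : ¬ (sg fv + (if rt then 0 else sg fp) + SF ≤ 2) := by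
        intro h; have := ht.2 h; rw [ht'] at this; exact absurd this (by decide)
      refine mul_le_mul_of_nonneg_left ?_ hb
      simp only [Bool.false_eq_true, if_false]
      omega
    · have h2 := ht.1 ht'
      apply le_of_eq
      congr 1
      cases he' : e
      · simp only [e, ht', if_true, decide_eq_false_iff_not] at he'
        simp only [if_true, Bool.false_eq_true, if_false]
        omega
      · simp only [e, ht', if_true, decide_eq_true_eq] at he'
        simp only [if_true]
        omega
  have h1 := mul_le_mul_of_nonneg_left hGlow ha
  have h3 := mul_le_mul_of_nonneg_left hTlow hc
  linarith

end Pool.Agent.MP_1fa864_co
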