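import Mathlib.Combinatorics.SimpleGraph.Acyclic
import Pool.Agent.MP_1fa864_co.Local

/-!
Rooting a tree and summing the local inequalities.
-/

namespace Pool.Agent.MP_1fa864_co

open Finset

variable {V : Type*}

theorem up_unique {G : SimpleGraph V} (hG : G.IsTree) (r : V) {v u u' : V}
    (hu : G.Adj v u) (hu' : G.Adj v u') (h : G.dist r v = G.dist r u + 1)
    (h' : G.dist r v = G.dist r u' + 1) : u = u' := by
  obtain ⟨p, hp, hpl⟩ := hG.connected.exists_path_of_dist r u
  obtain ⟨p', hp', hpl'⟩ := hG.connected.exists_path_of_dist r u'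
  have hq : (p.concat hu.symm).IsPath :=
    SimpleGraph.Walk.isPath_of_length_eq_dist _ (by rw [SimpleGraph.Walk.length_concat]; omega)
  have hq' : (p'.concat hu'.symm).IsPath :=
    SimpleGraph.Walk.isPath_of_length_eq_dist _ (by rw [SimpleGraph.Walk.length_concat]; omega)
  have heq : p.concat hu.symm = p'.concat hu'.symm :=
    Subtype.mk.inj <| (hG.isAcyclic.subsingleton_path r v).elim ⟨_, hq⟩ ⟨_, hq'⟩
  have := congrArg SimpleGraph.Walk.penultimate heq
  simpa using this

theorem up_exists {G : SimpleGraph V} (hG : G.IsTree) (r : V) {v : V} (hv : v ≠ r) :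
    ∃ u, G.Adj v u ∧ G.dist r v = G.dist r u + 1 := by
  obtain ⟨p, _, hpl⟩ := hG.connected.exists_path_of_dist v r
  cases p with
  | nil => exact absurd rfl hv
  | @cons _ u _ h q =>
    refine ⟨u, h, ?_⟩
    have h1 : G.dist u r ≤ q.length := SimpleGraph.dist_le q
    rw [SimpleGraph.Walk.length_cons] at hpl
    rw [SimpleGraph.dist_comm (u := v)] at hpl
    rw [SimpleGraph.dist_comm (u := u)] at h1
    rcases hG.dist_eq_dist_add_one_of_adj r h with h2 | h2 <;> omega

/-- A tree has a parent map. -/
theorem exists_parent {G : SimpleGraph V} (hG : G.IsTree) (r : V) :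
    ∃ par : V → V, (∀ v, v ≠ r → G.Adj v (par v)) ∧
      (∀ v u, G.Adj v u → (u ≠ r ∧ par u = v) ∨ (v ≠ r ∧ par v = u)) ∧
      (∀ v, v ≠ r → par v ≠ r → par (par v) ≠ v) := by
  classical
  have key : ∀ v, ∃ u, v ≠ r → G.Adj v u ∧ G.dist r v = G.dist r u + 1 := by
    intro v
    by_cases hv : v = r
    · exact ⟨v, fun h => absurd hv h⟩
    · obtain ⟨u, hu⟩ := up_exists hG r hv
      exact ⟨u, fun _ => hu⟩
  choose par hpar using key
  refine ⟨par, fun v hv => (hpar v hv).1, ?_, ?_⟩
  · intro v u hvu
    rcases hG.dist_eq_dist_add_one_of_adj r hvu with h | h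
    · have hv : v ≠ r := by
        rintro rfl
        rw [SimpleGraph.dist_self] at h
        omega
      exact Or.inr ⟨hv, up_unique hG r (hpar v hv).1 hvu (hpar v hv).2 h⟩
    · have hu : u ≠ r := by
        rintro rfl
        rw [SimpleGraph.dist_self] at h
        omega
      exact Or.inl ⟨hu, up_unique hG r (hpar u hu).1 hvu.symm (hpar u hu).2 h⟩
  · intro v hv hv' h
    have h1 := (hpar v hv).2
    have h2 := (hpar _ hv').2
    rw [h] at h2
    omega

theorem main_bool [Fintype V] [DecidableEq V] {G : SimpleGraph V} [DecidableRel G.Adj]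
    (hG : G.IsTree) (g f : V → Bool)
    (hg : ∀ v, 1 ≤ sg (g v) + ∑ u ∈ G.neighborFinset v, sg (g u))
    (hf : ∀ v, 1 ≤ sg (f v) + ∑ u ∈ G.neighborFinset v, sg (f u))
    (hmin : ∀ v, f v = true → ∃ u, (u = v ∨ G.Adj v u) ∧
      sg (f u) + ∑ w ∈ G.neighborFinset u, sg (f w) ≤ 2) :
    7 * (∑ v, ind (f v) - ∑ v, ind (g v)) ≤ 2 * (Fintype.card V : ℤ) - 2 := by
  obtain ⟨r⟩ := hG.nonempty
  obtain ⟨par, hadj, hcases, hne⟩ := exists_parent hG r
  let ch : V → Finset V := fun v => univ.filter fun c => c ≠ r ∧ par c = v
  have hsplit : ∀ (φ : V → ℤ) (v : V), ∑ u ∈ G.neighborFinset v, φ u =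
      (if v = r then 0 else φ (par v)) + ∑ c ∈ ch v, φ c := by
    intro φ v
    by_cases hv : v = r
    · have : G.neighborFinset v = ch v := by
        ext u
        simp only [SimpleGraph.mem_neighborFinset, ch, mem_filter, mem_univ, true_and]
        constructor
        · intro h
          rcases hcases v u h with h' | h'
          · exact h'
          · exact absurd hv h'.1
        · rintro ⟨h1, h2⟩
          have := hadj u h1
          rw [h2] at this
          exact this.symm
      rw [this, if_pos hv, zero_add]
    · have hnot : par v ∉ ch v := by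
        simp only [ch, mem_filter, mem_univ, true_and, not_and]
        exact fun h => hne v hv h
      have : G.neighborFinset v = insert (par v) (ch v) := by
        ext u
        simp only [SimpleGraph.mem_neighborFinset, ch, mem_insert, mem_filter, mem_univ, true_and]
        constructor
        · intro h
          rcases hcases v u h with h' | h'
          · exact Or.inr h'
          · exact Or.inl h'.2.symm
        · rintro (h | ⟨h1, h2⟩)
          · rw [h]; exact hadj v hv
          · have := hadj u h1
            rw [h2] at this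
            exact this.symm
      rw [this, sum_insert hnot, if_neg hv]
  let t : V → Bool := fun v => decide (sg (f v) + ∑ w ∈ G.neighborFinset v, sg (f w) ≤ 2)
  let nd : V → Bool := fun v => decide (f v = true ∧ t v = false ∧ ∀ c ∈ ch v, t c = false)
  let rt : V → Bool := fun v => decide (v = r)
  let P : V → ℤ := fun v => pot (g v) (f v) (rt v) (g (par v)) (f (par v)) (t v) (nd v)
  have hneed : ∀ v, nd v = true → v ≠ r ∧ t (par v) = true := by
    intro v hv
    simp only [nd, decide_eq_true_eq] at hv
    obtain ⟨h1, h2, h3⟩ := hv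
    obtain ⟨u, hu, hu2⟩ := hmin v h1
    have htu : t u = true := by simp only [t, decide_eq_true_eq]; exact hu2
    rcases hu with hu | hu
    · rw [hu, h2] at htu; exact absurd htu (by decide)
    · rcases hcases v u hu with h' | h'
      · have := h3 u (by simp only [ch, mem_filter, mem_univ, true_and]; exact h')
        rw [this] at htu; exact absurd htu (by decide)
      · exact ⟨h'.1, by rw [h'.2]; exact htu⟩
  have hif : ∀ (φ : V → Bool) (v : V), (if rt v = true then 0 else sg (φ (par v))) =
      (if v = r then 0 else sg (φ (par v))) := by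
    intro φ v
    simp only [rt, decide_eq_true_eq]
  have hloc : ∀ v, 7 * (ind (f v) - ind (g v)) - 2 + ∑ c ∈ ch v, P c ≤ P v := by
    intro v
    have hP : ∑ c ∈ ch v, P c =
        ∑ c ∈ ch v, pot (g c) (f c) false (g v) (f v) (t c) (nd c) := by
      refine sum_congr rfl fun c hc => ?_
      simp only [ch, mem_filter, mem_univ, true_and] at hc
      simp only [P, rt, hc.2, hc.1, decide_false]
    rw [hP]
    refine local_ineq (ch v) g f t nd (g v) (f v) (rt v) (g (par v)) (f (par v)) (t v) (nd v)
      ?_ ?_ ?_ ?_ ?_ ?_ ?_ ?_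
    · have := hg v
      rw [hsplit (fun u => sg (g u)) v] at this
      rw [hif]; linarith
    · have := hf v
      rw [hsplit (fun u => sg (f u)) v] at this
      rw [hif]; linarith
    · rw [hif]
      simp only [t, decide_eq_true_eq]
      rw [hsplit (fun u => sg (f u)) v, add_assoc]
    · intro c hc hn
      simp only [ch, mem_filter, mem_univ, true_and] at hc
      have := (hneed c hn).2
      rwa [hc.2] at this
    · intro c _ hn
      simp only [nd, decide_eq_true_eq] at hn
      exact hn.2.1
    · intro c _ hn
      simp only [nd, decide_eq_true_eq] at hn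
      exact hn.1
    · simp only [nd, decide_eq_true_eq]
    · intro hn
      simp only [rt, decide_eq_false_iff_not]
      exact (hneed v hn).1
  have hsum : ∑ v, ∑ c ∈ ch v, P c = ∑ c ∈ univ.erase r, P c := by
    have h1 : ∀ v, ch v = (univ.erase r).filter fun c => par c = v := by
      intro v
      ext c
      simp [ch]
    simp only [h1]
    exact sum_fiberwise_of_maps_to (fun _ _ => mem_univ _) P
  have hr : P r = -2 := by
    simp only [P, rt, decide_true]
    rfl
  have htot := sum_le_sum fun v (_ : v ∈ univ) => hloc v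
  rw [sum_add_distrib, hsum, ← add_sum_erase univ P (mem_univ r), hr, sum_sub_distrib,
    ← mul_sum, sum_sub_distrib] at htot
  simp only [sum_const, card_univ, nsmul_eq_mul] at htot
  linarith

end Pool.Agent.MP_1fa864_co
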